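import Pool.Agent.Helper18.KSZ.NSpec

/-!
# KSZ-N1b: the Brun-Hooley weights are small on smooth numbers
-/

set_option autoImplicit false

open Finset

namespace Pool.Agent.Helper26.KSZ

open Pool.Agent.Helper18.KSZ

/-- the multiplicative majorant -/
noncomputable def fm (x : ℝ) (n : ℕ) : ℝ := 8 ^ n.primeFactors.card * (n : ℝ) ^ (x - 1)

theorem fm_one (x : ℝ) : fm x 1 = 1 := by
  simp [fm]

theorem fm_mul (x : ℝ) {m n : ℕ} (h : Nat.Coprime m n) : fm x (m * n) = fm x m * fm x n := by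
  unfold fm
  have h1 : (m * n).primeFactors.card = m.primeFactors.card + n.primeFactors.card := by
    rw [h.primeFactors_mul, Finset.card_union_of_disjoint h.disjoint_primeFactors]
  rw [h1, pow_add, Nat.cast_mul, Real.mul_rpow (Nat.cast_nonneg _) (Nat.cast_nonneg _)]
  ring

theorem fm_nonneg (x : ℝ) (n : ℕ) : 0 ≤ fm x n := by
  unfold fm; positivity

theorem fm_prime_pow (x : ℝ) {p : ℕ} (hp : p.Prime) (n : ℕ) :
    fm x (p ^ (n + 1)) = 8 * ((p : ℝ) ^ (x - 1)) ^ (n + 1) := by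
  unfold fm
  rw [Nat.primeFactors_prime_pow (Nat.succ_ne_zero n) hp, Finset.card_singleton, pow_one,
    Nat.cast_pow, ← Real.rpow_natCast, ← Real.rpow_mul (Nat.cast_nonneg _), mul_comm _ (x - 1),
    Real.rpow_mul (Nat.cast_nonneg _), Real.rpow_natCast]

theorem q_lt_one {x : ℝ} (hx : x < 1) {p : ℕ} (hp : p.Prime) : (p : ℝ) ^ (x - 1) < 1 := by
  apply Real.rpow_lt_one_of_one_lt_of_neg
  · exact_mod_cast hp.one_lt
  · linarith

theorem fm_summable {x : ℝ} (hx : x < 1) {p : ℕ} (hp : p.Prime) :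
    Summable (fun n : ℕ => ‖fm x (p ^ n)‖) := by
  have hq : (p : ℝ) ^ (x - 1) < 1 := q_lt_one hx hp
  have hq0 : 0 ≤ (p : ℝ) ^ (x - 1) := Real.rpow_nonneg (Nat.cast_nonneg _) _
  have h1 : Summable (fun n : ℕ => 8 * ((p : ℝ) ^ (x - 1)) ^ n) :=
    (summable_geometric_of_lt_one hq0 hq).mul_left 8
  refine Summable.of_nonneg_of_le (fun _ => norm_nonneg _) (fun n => ?_) h1
  rw [Real.norm_of_nonneg (fm_nonneg _ _)]
  rcases n with _ | n
  · rw [pow_zero, fm_one]; norm_num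
  · rw [fm_prime_pow x hp]

theorem fm_tsum_le {w x : ℝ} (hx : 0 ≤ x) (hx1 : x < 1) (hwx : w ^ x ≤ 11 / 10)
    {p : ℕ} (hp : p.Prime) (hpw : (p : ℝ) ≤ w) : ∑' n : ℕ, fm x (p ^ n) ≤ 1 + 20 / p := by
  have hq : (p : ℝ) ^ (x - 1) < 1 := q_lt_one hx1 hp
  have hq0 : 0 ≤ (p : ℝ) ^ (x - 1) := Real.rpow_nonneg (Nat.cast_nonneg _) _
  have hs : Summable (fun n : ℕ => fm x (p ^ n)) := (fm_summable hx1 hp).of_norm
  have hp2 : (2 : ℝ) ≤ p := by exact_mod_cast hp.two_le
  have hp0 : (0 : ℝ) < p := by linarith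
  have h1 : (p : ℝ) ^ (x - 1) ≤ 11 / 10 / p := by
    rw [Real.rpow_sub_one (by positivity)]
    have : (p : ℝ) ^ x ≤ w ^ x := Real.rpow_le_rpow (by positivity) hpw hx
    gcongr
    linarith
  rw [hs.tsum_eq_zero_add, pow_zero, fm_one]
  have h2 : ∑' n : ℕ, fm x (p ^ (n + 1)) = 8 * ((p : ℝ) ^ (x - 1) * (1 - (p : ℝ) ^ (x - 1))⁻¹) := by
    rw [← tsum_geometric_of_lt_one hq0 hq, ← tsum_mul_left, ← tsum_mul_left]
    apply tsum_congr
    intro n
    rw [fm_prime_pow x hp, pow_succ]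
    ring
  rw [h2]
  have h3 : (p : ℝ) ^ (x - 1) ≤ 11 / 20 := by
    refine h1.trans ?_
    rw [div_le_iff₀ hp0]
    linarith
  have h4 : (1 - (p : ℝ) ^ (x - 1))⁻¹ ≤ 20 / 9 := by
    rw [inv_le_comm₀ (by linarith) (by norm_num)]
    norm_num
    linarith
  have h5 : (p : ℝ) ^ (x - 1) * (1 - (p : ℝ) ^ (x - 1))⁻¹ ≤ 11 / 10 / p * (20 / 9) := by
    apply mul_le_mul h1 h4
    · apply inv_nonneg.mpr; linarith
    · positivity
  have h6 : 8 * (11 / 10 / (p : ℝ) * (20 / 9)) ≤ 20 / p := by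
    rw [show 8 * (11 / 10 / (p : ℝ) * (20 / 9)) = (8 * (11 / 10) * (20 / 9)) / p by ring]
    gcongr
    norm_num
  linarith

theorem x_lt_one {w x : ℝ} (hw : 2 ≤ w) (hx : 0 ≤ x) (hwx : w ^ x ≤ 11 / 10) : x < 1 := by
  by_contra h
  push Not at h
  have h1 : (2 : ℝ) ^ (1 : ℝ) ≤ 2 ^ x := Real.rpow_le_rpow_of_exponent_le (by norm_num) h
  have h2 : (2 : ℝ) ^ x ≤ w ^ x := Real.rpow_le_rpow (by norm_num) hw hx
  rw [Real.rpow_one] at h1
  linarith

theorem euler_le {w x : ℝ} (hw : 2 ≤ w) (hx : 0 ≤ x) (hwx : w ^ x ≤ 11 / 10)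
    (P : Finset ℕ) (hP : ∀ p ∈ P, p.Prime ∧ (p : ℝ) ≤ w) (T : Finset ℕ)
    (hT : ∀ n ∈ T, 0 < n ∧ n.primeFactors ⊆ P) :
    ∑ n ∈ T, fm x n ≤ ∏ p ∈ P, (1 + 20 / (p : ℝ)) := by
  classical
  have hx1 := x_lt_one hw hx hwx
  have hfact : ∀ n ∈ T, n ∈ Nat.factoredNumbers P := by
    intro n hn
    obtain ⟨h0, h1⟩ := hT n hn
    rw [Nat.mem_factoredNumbers]
    refine ⟨h0.ne', fun p hp => h1 ?_⟩
    exact List.mem_toFinset.mpr hp
  have h1 := (EulerProduct.summable_and_hasSum_factoredNumbers_prod_filter_prime_tsum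
    (fm_one x) (fun {m n} h => fm_mul x h) (fun {p} hp => fm_summable hx1 hp) P).2
  have h2 : ∑ n ∈ T, fm x n =
      ∑ n ∈ T.subtype (fun n => n ∈ Nat.factoredNumbers P), fm x n := by
    rw [Finset.sum_subtype_of_mem (fun n => fm x n) hfact]
  rw [h2]
  refine (sum_le_hasSum (f := fun m : Nat.factoredNumbers P => fm x (m : ℕ))
    (T.subtype (fun n => n ∈ Nat.factoredNumbers P)) (fun i _ => fm_nonneg x i) h1).trans ?_
  rw [Finset.filter_true_of_mem (fun p hp => (hP p hp).1)]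
  apply Finset.prod_le_prod
  · intro p _
    exact tsum_nonneg fun n => fm_nonneg x _
  · intro p hp
    exact fm_tsum_le hx hx1 hwx (hP p hp).1 (hP p hp).2

/-- theta -/
noncomputable def th (b j : ℕ) : ℝ := (1 / 16) ^ (b + j)

theorem th_nonneg (b j : ℕ) : 0 ≤ th b j := by unfold th; positivity

theorem g_le (b j k : ℕ) :
    (if k = 0 then (1 : ℝ) else if k ≤ 2 * (b + j) then 0 else (2 : ℝ) ^ k) ≤
      if k = 0 then 1 else th b j * 8 ^ k := by
  split_ifs with h1 h2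
  · exact le_refl _
  · have := th_nonneg b j; positivity
  · push Not at h2
    have h3 : (16 : ℝ) ^ (b + j) ≤ 4 ^ k := by
      have : (16 : ℝ) ^ (b + j) = 4 ^ (2 * (b + j)) := by
        rw [pow_mul]; norm_num
      rw [this]
      exact pow_le_pow_right₀ (by norm_num) h2.le
    have h4 : (8 : ℝ) ^ k = 2 ^ k * 4 ^ k := by
      rw [← mul_pow]; norm_num
    unfold th
    rw [h4, one_div, inv_pow]
    have h5 : (0 : ℝ) < 16 ^ (b + j) := by positivity
    have h6 : 1 ≤ ((16 : ℝ) ^ (b + j))⁻¹ * 4 ^ k := by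
      rw [inv_mul_eq_div, le_div_iff₀ h5]
      linarith
    have h7 : (0 : ℝ) < 2 ^ k := by positivity
    nlinarith

theorem blocks_cover {w : ℝ} (hw : 2 ≤ w) {n : ℕ} (hn : smooth w n) :
    n.primeFactors ⊆ (range (Helper44.nb w)).biUnion (Helper96.CPAP.pb Nat.Prime w) := by
  intro p hp
  have hpp := Nat.prime_of_mem_primeFactors hp
  have hpd := Nat.dvd_of_mem_primeFactors hp
  have h1 : p ∈ Helper96.CPAP.pU Nat.Prime w :=
    (Helper96.CPAP.mem_pU (fun q hq => hq) (by linarith)).mpr ⟨hpp, hn p hpp hpd⟩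
  rw [← Helper96.CPAP.biUnion_pb (fun q hq => hq) hw, Finset.mem_biUnion] at h1
  obtain ⟨j, _, hj⟩ := h1
  exact Finset.mem_biUnion.mpr ⟨j, Finset.mem_range.mpr j.2, hj⟩

theorem card_primeFactors {w : ℝ} (hw : 2 ≤ w) {n : ℕ} (hn : smooth w n) :
    n.primeFactors.card = ∑ j ∈ range (Helper44.nb w), omB w j n := by
  classical
  unfold omB
  rw [← Finset.card_biUnion]
  · congr 1
    ext p
    rw [Finset.mem_biUnion]
    constructor
    · intro hp
      obtain ⟨j, hj, hpj⟩ := Finset.mem_biUnion.mp (blocks_cover hw hn hp)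
      exact ⟨j, hj, Finset.mem_inter.mpr ⟨hp, hpj⟩⟩
    · rintro ⟨j, _, hj⟩
      exact (Finset.mem_inter.mp hj).1
  · intro i _ j _ hij
    exact Finset.disjoint_of_subset_left Finset.inter_subset_right
      (Finset.disjoint_of_subset_right Finset.inter_subset_right
        (Helper96.CPAP.pb_disjoint (by linarith) hij))

open Classical in
/-- blocks met by n -/
noncomputable def Jn (w : ℝ) (n : ℕ) : Finset ℕ :=
  (range (Helper44.nb w)).filter (fun j => omB w j n ≠ 0)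

theorem prod_le {b : ℕ} {w : ℝ} (hw : 2 ≤ w) {n : ℕ} (hn : smooth w n) :
    ∏ j ∈ range (Helper44.nb w),
      (if omB w j n = 0 then 1 else if omB w j n ≤ 2 * (b + j) then 0 else (2 : ℝ) ^ omB w j n) ≤
    (∏ j ∈ Jn w n, th b j) * 8 ^ n.primeFactors.card := by
  classical
  calc ∏ j ∈ range (Helper44.nb w),
      (if omB w j n = 0 then 1 else if omB w j n ≤ 2 * (b + j) then 0 else (2 : ℝ) ^ omB w j n)
      ≤ ∏ j ∈ range (Helper44.nb w), (if omB w j n = 0 then 1 else th b j * 8 ^ omB w j n) := by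
        apply Finset.prod_le_prod
        · intro j _; split_ifs <;> positivity
        · intro j _; exact g_le b j _
    _ = ∏ j ∈ range (Helper44.nb w), ((if omB w j n ≠ 0 then th b j else 1) * 8 ^ omB w j n) := by
        apply Finset.prod_congr rfl
        intro j _
        by_cases h : omB w j n = 0
        · simp [h]
        · simp [h]
    _ = (∏ j ∈ Jn w n, th b j) * 8 ^ n.primeFactors.card := by
        rw [Finset.prod_mul_distrib, card_primeFactors hw hn, Finset.prod_pow_eq_pow_sum]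
        unfold Jn
        rw [Finset.prod_filter]

theorem Jn_ne_empty {w : ℝ} (hw : 2 ≤ w) {n : ℕ} (h1 : 1 < n) (hn : smooth w n) :
    Jn w n ≠ ∅ := by
  classical
  obtain ⟨p, hp, hpn⟩ := Nat.exists_prime_and_dvd h1.ne'
  have h2 : p ∈ n.primeFactors := Nat.mem_primeFactors.mpr ⟨hp, hpn, by omega⟩
  obtain ⟨j, hj, hpj⟩ := Finset.mem_biUnion.mp (blocks_cover hw hn h2)
  have h3 : j ∈ Jn w n := by
    unfold Jn
    rw [Finset.mem_filter]
    refine ⟨hj, ?_⟩
    unfold omB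
    rw [Finset.card_ne_zero]
    exact ⟨p, Finset.mem_inter.mpr ⟨h2, hpj⟩⟩
  intro h4
  rw [h4] at h3
  simp at h3

theorem prod_pb_le {S0 : ℝ} (hS : ∀ w : ℝ, 2 ≤ w → ∀ j : ℕ,
    ∑ q ∈ Helper96.CPAP.pb Nat.Prime w j, (1 : ℝ) / q ≤ S0) {w : ℝ} (hw : 2 ≤ w) (j : ℕ) :
    ∏ p ∈ Helper96.CPAP.pb Nat.Prime w j, (1 + 20 / (p : ℝ)) ≤ Real.exp (20 * S0) := by
  calc ∏ p ∈ Helper96.CPAP.pb Nat.Prime w j, (1 + 20 / (p : ℝ))
      ≤ ∏ p ∈ Helper96.CPAP.pb Nat.Prime w j, Real.exp (20 * (1 / (p : ℝ))) := by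
        apply Finset.prod_le_prod
        · intro p _; positivity
        · intro p _
          have := Real.add_one_le_exp (20 * (1 / (p : ℝ)))
          rw [show 20 / (p : ℝ) = 20 * (1 / (p : ℝ)) by ring]
          linarith
    _ = Real.exp (∑ p ∈ Helper96.CPAP.pb Nat.Prime w j, 20 * (1 / (p : ℝ))) := by
        rw [Real.exp_sum]
    _ ≤ Real.exp (20 * S0) := by
        rw [← Finset.mul_sum]
        apply Real.exp_le_exp.mpr
        have := hS w hw j
        linarith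

theorem sum_th_le (b N : ℕ) : ∑ j ∈ range N, th b j ≤ 2 * (1 / 16) ^ b := by
  unfold th
  have h1 : ∑ j ∈ range N, ((1 : ℝ) / 16) ^ (b + j) = (1 / 16) ^ b * ∑ j ∈ range N, (1 / 16 : ℝ) ^ j := by
    rw [Finset.mul_sum]
    apply Finset.sum_congr rfl
    intro j _
    rw [pow_add]
  rw [h1]
  have h2 : ∑ j ∈ range N, (1 / 16 : ℝ) ^ j ≤ 2 := by
    have h3 := (summable_geometric_of_lt_one (r := (1 / 16 : ℝ)) (by norm_num) (by norm_num))
    refine (h3.sum_le_tsum (range N) (fun i _ => by positivity)).trans ?_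
    rw [tsum_geometric_of_lt_one (by norm_num) (by norm_num)]
    norm_num
  have h3 : (0 : ℝ) < (1 / 16) ^ b := by positivity
  nlinarith

theorem lamSmall (h : LamBasic) : LamSmall := by
  classical
  obtain ⟨S0, hS0, hS1⟩ := Helper96.CPAP.sum_inv_pb_le
  have hS : ∀ w : ℝ, 2 ≤ w → ∀ j : ℕ,
      ∑ q ∈ Helper96.CPAP.pb Nat.Prime w j, (1 : ℝ) / q ≤ S0 :=
    fun w hw j => hS1 Nat.Prime (fun q hq => hq) w hw j
  set E : ℝ := Real.exp (20 * S0) with hE
  have hE0 : 0 < E := Real.exp_pos _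
  obtain ⟨b0, hb0⟩ := exists_pow_lt_of_lt_one (x := 1 / (20 * E)) (by positivity)
    (show (1 / 16 : ℝ) < 1 by norm_num)
  refine ⟨b0, ?_⟩
  intro b hb w hw x hx hwx S hS'
  have hb1 : (1 / 16 : ℝ) ^ b < 1 / (20 * E) :=
    lt_of_le_of_lt (pow_le_pow_of_le_one (by norm_num) (by norm_num) hb) hb0
  obtain ⟨_, _, _, _, hbet⟩ := h b w hw
  -- termwise bound
  have hterm : ∀ n ∈ S, bet (lamE b w) n * (n : ℝ) ^ (x - 1) ≤ (∏ j ∈ Jn w n, th b j) * fm x n := by
    intro n hn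
    obtain ⟨h1, h2⟩ := hS' n hn
    have h3 := (hbet n (by omega)).trans (prod_le (b := b) hw h2)
    unfold fm
    rw [← mul_assoc]
    exact mul_le_mul_of_nonneg_right h3 (Real.rpow_nonneg (Nat.cast_nonneg _) _)
  refine (Finset.sum_le_sum hterm).trans ?_
  set R := range (Helper44.nb w) with hR
  have hmaps : ∀ n ∈ S, Jn w n ∈ R.powerset.erase ∅ := by
    intro n hn
    obtain ⟨h1, h2⟩ := hS' n hn
    rw [Finset.mem_erase, Finset.mem_powerset]
    exact ⟨Jn_ne_empty hw h1 h2, Finset.filter_subset _ _⟩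
  rw [← Finset.sum_fiberwise_of_maps_to hmaps]
  have hJ : ∀ J ∈ R.powerset.erase ∅,
      ∑ n ∈ S with Jn w n = J, (∏ j ∈ Jn w n, th b j) * fm x n ≤ ∏ j ∈ J, (th b j * E) := by
    intro J hJ
    have h1 : ∑ n ∈ S with Jn w n = J, (∏ j ∈ Jn w n, th b j) * fm x n =
        (∏ j ∈ J, th b j) * ∑ n ∈ S with Jn w n = J, fm x n := by
      rw [Finset.mul_sum]
      apply Finset.sum_congr rfl
      intro n hn
      rw [(Finset.mem_filter.mp hn).2]
    rw [h1, Finset.prod_mul_distrib]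
    apply mul_le_mul_of_nonneg_left _ (Finset.prod_nonneg fun j _ => th_nonneg b j)
    have h2 : ∑ n ∈ S with Jn w n = J, fm x n ≤
        ∏ p ∈ J.biUnion (Helper96.CPAP.pb Nat.Prime w), (1 + 20 / (p : ℝ)) := by
      apply euler_le hw hx hwx
      · intro p hp
        obtain ⟨j, hj, hpj⟩ := Finset.mem_biUnion.mp hp
        have hjR : j ∈ R := (Finset.mem_powerset.mp (Finset.mem_of_mem_erase hJ)) hj
        have h3 : p ∈ Helper96.CPAP.pU Nat.Prime w := by
          rw [← Helper96.CPAP.biUnion_pb (fun q hq => hq) hw, Finset.mem_biUnion]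
          exact ⟨⟨j, Finset.mem_range.mp hjR⟩, Finset.mem_univ _, hpj⟩
        exact (Helper96.CPAP.mem_pU (fun q hq => hq) (by linarith)).mp h3
      · intro n hn
        obtain ⟨hnS, hnJ⟩ := Finset.mem_filter.mp hn
        obtain ⟨h1, h2⟩ := hS' n hnS
        refine ⟨by omega, ?_⟩
        intro p hp
        obtain ⟨j, hj, hpj⟩ := Finset.mem_biUnion.mp (blocks_cover hw h2 hp)
        refine Finset.mem_biUnion.mpr ⟨j, ?_, hpj⟩
        rw [← hnJ]
        unfold Jn
        rw [Finset.mem_filter]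
        refine ⟨hj, ?_⟩
        unfold omB
        rw [Finset.card_ne_zero]
        exact ⟨p, Finset.mem_inter.mpr ⟨hp, hpj⟩⟩
    refine h2.trans ?_
    rw [Finset.prod_biUnion]
    · apply Finset.prod_le_prod
      · intro j _; exact Finset.prod_nonneg fun p _ => by positivity
      · intro j _; exact prod_pb_le hS hw j
    · intro i _ j _ hij
      exact Helper96.CPAP.pb_disjoint (by linarith) hij
  refine (Finset.sum_le_sum hJ).trans ?_
  have hall : ∑ J ∈ R.powerset.erase ∅, ∏ j ∈ J, (th b j * E) = ∏ j ∈ R, (1 + th b j * E) - 1 := by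
    rw [Finset.prod_one_add, ← Finset.sum_erase_add _ _ (Finset.empty_mem_powerset R)]
    simp
  rw [hall]
  have h5 : ∏ j ∈ R, (1 + th b j * E) ≤ Real.exp (∑ j ∈ R, th b j * E) := by
    rw [Real.exp_sum]
    apply Finset.prod_le_prod
    · intro j _; have := th_nonneg b j; positivity
    · intro j _
      have := Real.add_one_le_exp (th b j * E)
      linarith
  have h6 : ∑ j ∈ R, th b j * E ≤ 1 / 10 := by
    rw [← Finset.sum_mul]
    have h7 := sum_th_le b (Helper44.nb w)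
    have h8 : (∑ j ∈ R, th b j) * E ≤ (2 * (1 / (20 * E))) * E := by
      apply mul_le_mul_of_nonneg_right _ hE0.le
      linarith
    refine h8.trans (le_of_eq ?_)
    field_simp
    norm_num
  have h7 : Real.exp (∑ j ∈ R, th b j * E) ≤ 9 / 8 := by
    refine (Real.exp_le_exp.mpr h6).trans ?_
    have h8 := Real.exp_bound' (x := 1 / 10) (by norm_num) (by norm_num) (n := 3) (by norm_num)
    simp [Finset.sum_range_succ] at h8
    norm_num at h8 ⊢
    linarith
  linarith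

end Pool.Agent.Helper26.KSZ
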